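import Mathlib
import Pool.Agent.N990.RU.Stm

/-!
# Project RU, part TOP: the DLR equation for the ends
-/

set_option autoImplicit false

open MeasureTheory
open Pool.Agent.N988.EA
open Pool.Agent.N990.RU

namespace Pool.Agent.N438.RU

theorem ends_repl (h2 : S_GEO) (p : ℕ → Fin 2 × Bool) (n : ℕ) (ω : VInf p → Ang)
    (σ : Vert 2 (n + 1) → Ang) :
    ends p n (repl p (n + 1) ω σ) =
      fun t => if t = (p n).2 then ends p (n + 1) ω t else σ (Sum.inl (p n).1 : Vert 2 (n + 1)) := by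
  obtain ⟨_, hinc, hinj, _, hrepl, _⟩ := h2 p
  funext t
  unfold ends
  rw [← hinc n (.inl t)]
  obtain ⟨hr1, hr2⟩ := hrepl (n + 1) ω σ
  by_cases ht : t = (p n).2
  · have e : emb (p n).1 (p n).2 (.inl t) = (.inl (p n).2 : Pt 2 (n + 1)) := if_pos ht
    rw [e, if_pos ht, ht]
    exact hr2 _ fun x hx => by
      have := hinj (n + 1) hx
      exact absurd this (by simp)
  · have e : emb (p n).1 (p n).2 (.inl t) = (.inr (.inl (p n).1) : Pt 2 (n + 1)) := if_neg ht
    rw [e, if_neg ht]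
    exact hr1 _

theorem t_top (_h1 : Pool.Agent.N990.RU.S_BAS) (h2 : Pool.Agent.N990.RU.S_GEO) :
    Pool.Agent.N990.RU.S_TOP := by
  intro p J μ hμ n f hf hb
  have hm : Measurable (ends p n) :=
    measurable_pi_lambda _ fun t => measurable_pi_apply _
  obtain ⟨C, hC⟩ := hb
  have h := hμ.dlr (n + 1) (fun ω => f (ends p n ω)) (hf.comp hm) ⟨C, fun ω => hC _⟩
  rw [h]
  refine integral_congr_ae (Filter.Eventually.of_forall fun ω => ?_)
  simp only [ends_repl h2]
  rfl

end Pool.Agent.N438.RU
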